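import Pool.Agent.helper52.B3.Two

/-!
Regime (ii) of T3 is impossible, and the region of the tripodal states (T3).
-/

set_option autoImplicit false

namespace Pool.Agent.helper26.B3

open Real Set

variable {y1 y2 y3 m1 m2 m3 : ℝ}

theorem Tri.region_two (h : Tri y1 y2 y3 m1 m2 m3) (h2 : y2 ≤ 0) (hu : 5 ≤ y2 + y3)
    (hq : 11 / 10 ≤ -(y1 + y3)) : False := by
  have h12 := h.h12
  have h23 := h.h23
  have hsum := h.sum_pos h2
  have hg1 := h.R2_gap1
  have hg2 := h.R2_gap2 (by linarith)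
  have hAle := h.R2_A_le
  have hXle := h.R2_X_le
  have hDle := h.R2_D_le
  have hE1 := h.E1
  have hE2 := h.E2
  have hT := h.R2_T3 rfl
  have ha3 := h.a3
  have hu1 := R2_expu hu
  have hu2 := R2_uexpu hu
  have hσle := S_neg_le (y2 + y3)
  have hσ0 := sigmoid_pos (-(y2 + y3))
  have hlle : L (-(y2 + y3)) ≤ Real.exp (-(y2 + y3)) := L_le_exp _
  have hl0 := L_pos' (-(y2 + y3))
  have hP13 : P (y1 + y3) (y2 + y3) = 1 - sigmoid (-(y2 + y3)) - sigmoid (y1 + y3) := by
    unfold P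
    rw [sigmoid_neg]
    ring
  have hP22 : P (y2 + y2) (y3 + y2) = 1 - sigmoid (-(y2 + y3)) - sigmoid (y2 + y2) := by
    unfold P
    rw [sigmoid_neg, add_comm y3 y2]
    ring
  -- names
  obtain ⟨r, hr⟩ : ∃ r, r = m1 * s (y3 + y1) + m2 * s (y3 + y2) + m3 * s (y3 + y3) := ⟨_, rfl⟩
  obtain ⟨A, hA⟩ : ∃ A, A = m1 * P (y2 + y1) (y3 + y1) := ⟨_, rfl⟩
  obtain ⟨D, hD⟩ : ∃ D, D = m3 * P (y2 + y3) (y3 + y3) := ⟨_, rfl⟩
  obtain ⟨X, hX⟩ : ∃ X, X = m1 * P (y1 + y1) (y2 + y1) + m2 * P (y1 + y2) (y2 + y2) := ⟨_, rfl⟩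
  have hr0 : 0 ≤ r := by
    rw [hr]
    have := mul_pos h.m1pos (s_pos (y3 + y1))
    have := mul_pos h.m2pos (s_pos (y3 + y2))
    have := mul_pos h.m3pos (s_pos (y3 + y3))
    linarith
  have hA0 : 0 ≤ A := by
    rw [hA]
    exact mul_nonneg h.m1pos.le (sub_nonneg.2 (sigmoid_le (by linarith)))
  have hD0 : 0 ≤ D := by
    rw [hD]
    exact mul_nonneg h.m3pos.le (sub_nonneg.2 (sigmoid_le (by linarith)))
  have hX0 : 0 ≤ X := by
    rw [hX]
    have := mul_nonneg h.m1pos.le (sub_nonneg.2 (sigmoid_le (by linarith : y1 + y1 ≤ y2 + y1)))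
    have := mul_nonneg h.m2pos.le (sub_nonneg.2 (sigmoid_le (by linarith : y1 + y2 ≤ y2 + y2)))
    unfold P
    linarith
  rw [← hr] at ha3 hAle hT
  rw [← hA] at hg2 hAle
  rw [← hD] at hg2 hDle
  rw [← hX] at hg1 hXle
  have hw3 : m3 * P (y1 + y3) (y2 + y3) = y2 - y1 - X := by linarith
  rw [hw3] at hg1
  have hB : m2 * P (y2 + y2) (y3 + y2) ≤ y3 - y2 := by linarith
  -- the number `τ = S(-q)`
  have hτ0 := sigmoid_pos (y1 + y3)
  have hτeq : sigmoid (y1 + y3) = (1 + Real.exp (-(y1 + y3)))⁻¹ := by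
    have := S_neg_eq (-(y1 + y3))
    rw [neg_neg] at this
    exact this
  have hm3w : m3 * P (y1 + y3) (y2 + y3) ≤ 2 * (y2 + y3) := by linarith
  have hDP : D * P (y1 + y3) (y2 + y3) ≤ 674 / 10000 := by
    have h5 : 0 ≤ P (y1 + y3) (y2 + y3) := sub_nonneg.2 (sigmoid_le (by linarith))
    have h6 := mul_le_mul_of_nonneg_right hDle h5
    have h7 := mul_le_mul_of_nonneg_right hm3w hσ0.le
    have h8 : (y2 + y3) * sigmoid (-(y2 + y3)) ≤ (y2 + y3) * Real.exp (-(y2 + y3)) :=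
      mul_le_mul_of_nonneg_left hσle (by linarith)
    nlinarith
  have hexpq : Real.exp (11 / 10) ≤ Real.exp (-(y1 + y3)) := Real.exp_le_exp.2 hq
  have hf0 := R2_f0
  have hτ1 : sigmoid (y1 + y3) ≤ 24975 / 100000 := by
    rw [hτeq]
    calc (1 + Real.exp (-(y1 + y3)))⁻¹ ≤ (40041 / 10000 : ℝ)⁻¹ :=
          inv_anti₀ (by norm_num) (by linarith)
      _ ≤ 24975 / 100000 := by norm_num
  have hP13a : 7435 / 10000 ≤ P (y1 + y3) (y2 + y3) := by
    rw [hP13]
    linarith
  have hDa : D ≤ 91 / 1000 := by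
    have : D * (7435 / 10000) ≤ D * P (y1 + y3) (y2 + y3) := mul_le_mul_of_nonneg_left hP13a hD0
    linarith
  have hAa : A ≤ 13329 / 10000 := by
    have h5 : Real.exp (y1 + y3) ≤ 10000 / 30041 := by
      have : Real.exp (y1 + y3) = (Real.exp (-(y1 + y3)))⁻¹ := by
        rw [Real.exp_neg, inv_inv]
      rw [this]
      calc (Real.exp (-(y1 + y3)))⁻¹ ≤ (30041 / 10000 : ℝ)⁻¹ :=
            inv_anti₀ (by norm_num) (by linarith)
        _ ≤ 10000 / 30041 := by norm_num
    have h6 : r * (1 + Real.exp (y1 + y3)) ≤ 1 * (1 + 10000 / 30041) :=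
      mul_le_mul ha3 (by linarith) (by positivity) (by norm_num)
    linarith
  have hvp : y3 - y2 = y2 + y3 + -(2 * y2) := by ring
  have hp0 : 0 ≤ -(2 * y2) := by linarith
  -- the chain for `p`
  have hp5 : 258 / 100 < -(2 * y2) := by
    by_contra hcon
    rw [not_lt] at hcon
    rcases le_total (-(2 * y2)) (36 / 100) with k1 | k1
    · exact R2_step hvp hu hp0 k1 le_rfl R2_G0 hg2 hAa hDa (by norm_num) (by norm_num)
        (by norm_num) (by norm_num)
    rcases le_total (-(2 * y2)) (88 / 100) with k2 | k2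
    · exact R2_step hvp hu k1 k2 (by norm_num) R2_G1 hg2 hAa hDa (by norm_num) (by norm_num)
        (by norm_num) (by norm_num)
    rcases le_total (-(2 * y2)) (152 / 100) with k3 | k3
    · exact R2_step hvp hu k2 k3 (by norm_num) R2_G2 hg2 hAa hDa (by norm_num) (by norm_num)
        (by norm_num) (by norm_num)
    rcases le_total (-(2 * y2)) (214 / 100) with k4 | k4
    · exact R2_step hvp hu k3 k4 (by norm_num) R2_G3 hg2 hAa hDa (by norm_num) (by norm_num)
        (by norm_num) (by norm_num)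
    · exact R2_step hvp hu k4 hcon (by norm_num) R2_G4 hg2 hAa hDa (by norm_num) (by norm_num)
        (by norm_num) (by norm_num)
  have hG5 : G (-(2 * y2)) ≤ -(2 * y2) + 2742 / 10000 := by
    have h5 := G_slope hp5.le
    have h6 := R2_G5
    linarith
  have hv758 : 758 / 100 ≤ y3 - y2 := by linarith
  have hvle : y3 - y2 ≤ 2 * -(2 * y2) + 22 / 10 := by
    by_contra hcon
    rw [not_le] at hcon
    have h5 : 8215 / 10000 < (y3 - y2) / 2 - G (-(2 * y2)) := by linarith
    have h6 : (y3 - y2 - 14239 / 10000) * (8215 / 10000) ≤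
        (y3 - y2 - A - D) * ((y3 - y2) / 2 - G (-(2 * y2))) :=
      mul_le_mul (by linarith) h5.le (by norm_num) (by linarith)
    have h7 : A * ((y3 - y2) / 2) ≤ 13329 / 10000 * ((y3 - y2) / 2) :=
      mul_le_mul_of_nonneg_right hAa (by linarith)
    linarith
  -- `ν = S(-p)`
  have hν0 := sigmoid_pos (y2 + y2)
  have hνeq : sigmoid (y2 + y2) * (1 + Real.exp (-(2 * y2))) = 1 := by
    have h5 := S_neg_eq (-(2 * y2))
    have h6 : - -(2 * y2) = y2 + y2 := by ring
    rw [h6] at h5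
    rw [h5, inv_mul_cancel₀]
    positivity
  have hep : 13197 / 1000 * (-(2 * y2) - 158 / 100) ≤ Real.exp (-(2 * y2)) := by
    have h5 : Real.exp (-(2 * y2)) = Real.exp (258 / 100) * Real.exp (-(2 * y2) - 258 / 100) := by
      rw [← Real.exp_add]
      congr 1
      ring
    have h6 := Real.add_one_le_exp (-(2 * y2) - 258 / 100)
    rw [h5]
    exact mul_le_mul R2_e5 (by linarith) (by linarith) (Real.exp_pos _).le
  have hν1 : sigmoid (y2 + y2) ≤ 7045 / 100000 := by
    by_contra hcon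
    rw [not_le] at hcon
    have h5 : (7045 / 100000 : ℝ) * (1 + 13197 / 1000) <
        sigmoid (y2 + y2) * (1 + Real.exp (-(2 * y2))) :=
      mul_lt_mul'' hcon (by linarith) (by norm_num) (by norm_num)
    linarith
  have hνv : (y3 - y2) * sigmoid (y2 + y2) ≤ 5186 / 10000 := by
    have h5 : y3 - y2 ≤ 5186 / 10000 * (1 + Real.exp (-(2 * y2))) := by linarith
    have h6 := mul_le_mul_of_nonneg_right h5 hν0.le
    linarith [hνeq, mul_comm (sigmoid (y2 + y2)) (1 + Real.exp (-(2 * y2)))]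
  have hP22a : 9228 / 10000 ≤ P (y2 + y2) (y3 + y2) := by
    rw [hP22]
    linarith
  have hm2ν : m2 * sigmoid (y2 + y2) ≤ 562 / 1000 := by
    have h5 : m2 * P (y2 + y2) (y3 + y2) * sigmoid (y2 + y2) ≤ (y3 - y2) * sigmoid (y2 + y2) :=
      mul_le_mul_of_nonneg_right hB hν0.le
    have h6 : m2 * sigmoid (y2 + y2) * (9228 / 10000) ≤
        m2 * sigmoid (y2 + y2) * P (y2 + y2) (y3 + y2) :=
      mul_le_mul_of_nonneg_left hP22a (mul_nonneg h.m2pos.le hν0.le)
    linarith [mul_right_comm m2 (P (y2 + y2) (y3 + y2)) (sigmoid (y2 + y2))]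
  have hm1 : m1 * sigmoid (y2 + y1) ≤ 11 / 10000 := by
    have h5 : m1 * s (y3 + y1) ≤ 1 := by
      have := mul_pos h.m2pos (s_pos (y3 + y2))
      have := mul_pos h.m3pos (s_pos (y3 + y3))
      linarith
    have h6 : sigmoid (y2 + y1) ≤ 11 / 10000 * s (y3 + y1) := by
      have e1 : sigmoid (y2 + y1) ≤ Real.exp (y2 + y1) := by
        have := S_neg_le (-(y2 + y1))
        rw [neg_neg] at this
        exact this
      have e2 : Real.exp (y2 + y1) =
          Real.exp (-(y2 + y3)) * Real.exp (-(-(2 * y2))) * Real.exp (y3 + y1) := by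
        rw [← Real.exp_add, ← Real.exp_add]
        congr 1
        ring
      have e3 : Real.exp (-(-(2 * y2))) ≤ 1000 / 13197 := by
        rw [Real.exp_neg]
        have : (13197 / 1000 : ℝ) ≤ Real.exp (-(2 * y2)) := by linarith
        calc (Real.exp (-(2 * y2)))⁻¹ ≤ (13197 / 1000 : ℝ)⁻¹ := inv_anti₀ (by norm_num) this
          _ = 1000 / 13197 := by norm_num
      have e4 : Real.exp (y3 + y1) ≤ 2 * s (y3 + y1) := by
        have f1 : sigmoid (y3 + y1) = Real.exp (y3 + y1) * (1 - sigmoid (y3 + y1)) := S_eq _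
        have f2 : 3 / 4 ≤ 1 - sigmoid (y3 + y1) := by
          rw [add_comm y3 y1]
          linarith
        have f3 : s (y3 + y1) =
            Real.exp (y3 + y1) * ((1 - sigmoid (y3 + y1)) * (1 - sigmoid (y3 + y1))) := by
          unfold s
          rw [← mul_assoc, ← f1]
        have f4 : (1 / 2 : ℝ) ≤ (1 - sigmoid (y3 + y1)) * (1 - sigmoid (y3 + y1)) := by
          nlinarith
        rw [f3]
        have f5 := mul_le_mul_of_nonneg_left f4 (Real.exp_pos (y3 + y1)).le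
        linarith
      have e5 : Real.exp (-(y2 + y3)) * Real.exp (-(-(2 * y2))) ≤
          674 / 100000 * (1000 / 13197) :=
        mul_le_mul hu1 e3 (Real.exp_pos _).le (by norm_num)
      have e6 : Real.exp (-(y2 + y3)) * Real.exp (-(-(2 * y2))) * Real.exp (y3 + y1) ≤
          674 / 100000 * (1000 / 13197) * (2 * s (y3 + y1)) :=
        mul_le_mul e5 e4 (Real.exp_pos _).le (by norm_num)
      rw [← e2] at e6
      have e7 := s_pos (y3 + y1)
      have e8 : (674 / 100000 * (1000 / 13197) * (2 * s (y3 + y1)) : ℝ) ≤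
          11 / 10000 * s (y3 + y1) := by
        have e9 : (674 / 100000 * (1000 / 13197) * 2 : ℝ) ≤ 11 / 10000 := by norm_num
        have e10 := mul_le_mul_of_nonneg_right e9 e7.le
        linarith
      linarith
    have h7 := mul_le_mul_of_nonneg_left h6 h.m1pos.le
    linarith [mul_left_comm m1 (11 / 10000 : ℝ) (s (y3 + y1))]
  have hXa : X ≤ 5635 / 10000 := by linarith
  -- the chain for `q`
  have hwq : y2 - y1 = y2 + y3 + -(y1 + y3) := by ring
  have hg1' : (y2 - y1 - X - 0) * ((y2 - y1) / 2 - G (-(y1 + y3))) ≤ X * ((y2 - y1) / 2) := by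
    rw [sub_zero]
    exact hg1
  have hq2 : 394 / 100 < -(y1 + y3) := by
    by_contra hcon
    rw [not_lt] at hcon
    rcases le_total (-(y1 + y3)) (287 / 100) with k1 | k1
    · exact R2_step hwq hu hq k1 (by norm_num) R2_H0 hg1' hXa le_rfl (by norm_num) (by norm_num)
        (by norm_num) (by norm_num)
    · exact R2_step hwq hu k1 hcon (by norm_num) R2_H1 hg1' hXa le_rfl (by norm_num)
        (by norm_num) (by norm_num) (by norm_num)
  have hH2 : G (-(y1 + y3)) ≤ -(y1 + y3) + 964 / 10000 := by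
    have h5 := G_slope hq2.le
    have h6 := R2_H2
    linarith
  have huq : y2 + y3 - -(y1 + y3) ≤ 8 / 10 := by
    by_contra hcon
    rw [not_le] at hcon
    have h5 : 301 / 1000 < (y2 - y1) / 2 - G (-(y1 + y3)) := by linarith
    have h6 : (y2 - y1 - 5635 / 10000) * (301 / 1000) ≤
        (y2 - y1 - X) * ((y2 - y1) / 2 - G (-(y1 + y3))) :=
      mul_le_mul (by linarith) h5.le (by norm_num) (by linarith)
    have h7 : X * ((y2 - y1) / 2) ≤ 5635 / 10000 * ((y2 - y1) / 2) :=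
      mul_le_mul_of_nonneg_right hXa (by linarith)
    linarith
  -- second use of the upper gap
  have hexpq2 : (5141 / 100 : ℝ) ≤ Real.exp (-(y1 + y3)) :=
    R2_f2.trans (Real.exp_le_exp.2 hq2.le)
  have hAb : A ≤ 10195 / 10000 * r := by
    have h5 : Real.exp (y1 + y3) ≤ 100 / 5141 := by
      have : Real.exp (y1 + y3) = (Real.exp (-(y1 + y3)))⁻¹ := by
        rw [Real.exp_neg, inv_inv]
      rw [this]
      calc (Real.exp (-(y1 + y3)))⁻¹ ≤ (5141 / 100 : ℝ)⁻¹ := inv_anti₀ (by norm_num) hexpq2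
        _ ≤ 100 / 5141 := by norm_num
    have h6 : r * (1 + Real.exp (y1 + y3)) ≤ r * (10195 / 10000) :=
      mul_le_mul_of_nonneg_left (by linarith) hr0
    linarith
  have hτ2 : sigmoid (y1 + y3) ≤ 1909 / 100000 := by
    rw [hτeq]
    calc (1 + Real.exp (-(y1 + y3)))⁻¹ ≤ (5241 / 100 : ℝ)⁻¹ :=
          inv_anti₀ (by norm_num) (by linarith)
      _ ≤ 1909 / 100000 := by norm_num
  have hP13b : 9741 / 10000 ≤ P (y1 + y3) (y2 + y3) := by
    rw [hP13]
    linarith
  have hDb : D ≤ 692 / 10000 := by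
    have : D * (9741 / 10000) ≤ D * P (y1 + y3) (y2 + y3) := mul_le_mul_of_nonneg_left hP13b hD0
    linarith
  have hδ : y2 + y3 - -(2 * y2) ≤ 55 / 100 + 121 / 100 * r := by
    have h5 : (y3 - y2) / 2 - G (-(2 * y2)) ≤ 59 / 100 * A := by
      by_contra hcon
      rw [not_le] at hcon
      have h6 : 0 ≤ 59 / 100 * A := by linarith
      have h7 : 85 / 100 * (y3 - y2) ≤ y3 - y2 - A - D := by linarith
      have h8 : 85 / 100 * (y3 - y2) * (59 / 100 * A) < (y3 - y2 - A - D) *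
          ((y3 - y2) / 2 - G (-(2 * y2))) :=
        mul_lt_mul' h7 hcon h6 (by linarith)
      have h9 : 0 ≤ A * (y3 - y2) := mul_nonneg hA0 (by linarith)
      nlinarith
    linarith
  -- the second order condition
  have hσu : (y2 + y3) * sigmoid (-(y2 + y3)) ≤ 337 / 10000 :=
    (mul_le_mul_of_nonneg_left hσle (by linarith)).trans hu2
  have hlu : (y2 + y3) * L (-(y2 + y3)) ≤ 337 / 10000 :=
    (mul_le_mul_of_nonneg_left hlle (by linarith)).trans hu2
  have halg := R2_alg hvp hwq hu (by linarith) huq (by linarith) hr0 ha3 hδ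
    (hσle.trans hu1) hτ2 hσu hσ0.le hl0.le (hlle.trans hu1) hlu
  rw [hP13] at hT
  obtain ⟨B, hBdef⟩ : ∃ B, B = 2 * (2 - r) * (1 - sigmoid (-(y2 + y3)) - sigmoid (y1 + y3)) -
      4 * (y2 - y1) * sigmoid (-(y2 + y3)) / (y3 - y2) -
      4 * (2 - r) * (y2 + y3 + L (-(y2 + y3))) / (y3 - y2) +
      4 * (y2 - y1) * (-(2 * y2) - 2 * L (-(y2 + y3))) / (y3 - y2) ^ 2 := ⟨_, rfl⟩
  rw [← hBdef] at hT halg
  have hB0 : 0 < B := by linarith
  have hm3 : 93 / 100 * (y2 - y1) ≤ m3 := by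
    have h5 : m3 * P (y1 + y3) (y2 + y3) ≤ m3 * 1 := by
      refine mul_le_mul_of_nonneg_left ?_ h.m3pos.le
      rw [hP13]
      linarith
    linarith
  have h10 : 93 / 100 * (y2 - y1) * B ≤ m3 * B := mul_le_mul_of_nonneg_right hm3 hB0.le
  have h11 : (y2 - y1) * (1 - r) < (y2 - y1) * (93 / 100 * B) :=
    mul_lt_mul_of_pos_left halg (by linarith)
  linarith

/-- (T3) The region of the tripodal states with `y2 ≤ 0`. -/
theorem Tri.region (h : Tri y1 y2 y3 m1 m2 m3) (h2 : y2 ≤ 0) :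
    (y2 + y3 ≤ 5 → -(2 * y2) ≤ 37 / 4) ∧
    (5 ≤ y2 + y3 → -(2 * y2) ≤ 11 / 8 ∧ y2 - y1 ≤ 13 / 4 ∧ y2 + y3 ≤ 13 / 2) := by
  refine ⟨fun hu => h.p_le h2 hu, fun hu => ?_⟩
  rcases le_total (-(y1 + y3)) (11 / 10) with hq | hq
  · exact h.region_c h2 hu hq
  · exact (h.region_two h2 hu hq).elim

end Pool.Agent.helper26.B3
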