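import Pool.Agent.helper52.B3.Num

/-!
Regime (ii) of T3: mean conditions on the two gaps and bounds for the masses.
-/

set_option autoImplicit false

namespace Pool.Agent.helper26.B3

open Real Set

theorem C_le_half (a b : ℝ) : C a b ≤ (sigmoid b - sigmoid a) * ((b - a) / 2) := by
  have h1 := C_ge_half (a := -b) (b := -a)
  rw [C_neg, sigmoid_neg, sigmoid_neg] at h1
  have e : (1 - sigmoid a - (1 - sigmoid b)) * ((-a - -b) / 2) =
      (sigmoid b - sigmoid a) * ((b - a) / 2) := by ring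
  rw [e] at h1
  linarith

theorem C_nonpos {a b : ℝ} (hab : a ≤ b) (h : 0 ≤ a + b) : C a b ≤ 0 := by
  have h1 := C_nonneg (neg_le_neg hab) (by linarith)
  rw [C_neg] at h1
  linarith

variable {y1 y2 y3 m1 m2 m3 : ℝ}

/-- The mean condition on the upper gap. -/
theorem Tri.R2_gap2 (h : Tri y1 y2 y3 m1 m2 m3) (hu : 0 ≤ y2 + y3) :
    (y3 - y2 - m1 * P (y2 + y1) (y3 + y1) - m3 * P (y2 + y3) (y3 + y3)) *
      ((y3 - y2) / 2 - G (-(2 * y2))) ≤ m1 * P (y2 + y1) (y3 + y1) * ((y3 - y2) / 2) := by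
  have h12 := h.h12
  have h23 := h.h23
  have hE := h.E2
  have hA := h.A2
  have c1 : m1 * C (y2 + y1) (y3 + y1) ≤ m1 * P (y2 + y1) (y3 + y1) * ((y3 - y2) / 2) := by
    have e1 := mul_le_mul_of_nonneg_left (C_le_half (y2 + y1) (y3 + y1)) h.m1pos.le
    have e2 : (y3 + y1 - (y2 + y1)) / 2 = (y3 - y2) / 2 := by ring
    rw [e2, ← mul_assoc] at e1
    exact e1
  have c2 : m2 * C (y2 + y2) (y3 + y2) ≤
      m2 * P (y2 + y2) (y3 + y2) * (G (-(2 * y2)) - (y3 - y2) / 2) := by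
    have e1 := mul_le_mul_of_nonneg_left (C_le (a := y2 + y2) (b := y3 + y2) (by linarith))
      h.m2pos.le
    have e2 : (y3 + y2 - (y2 + y2)) / 2 = (y3 - y2) / 2 := by ring
    have e3 : -(y2 + y2) = -(2 * y2) := by ring
    rw [e2, ← mul_assoc, e3] at e1
    exact e1
  have c3 : m3 * C (y2 + y3) (y3 + y3) ≤ 0 :=
    mul_nonpos_of_nonneg_of_nonpos h.m3pos.le (C_nonpos (by linarith) (by linarith))
  have e4 : m2 * P (y2 + y2) (y3 + y2) =
      y3 - y2 - m1 * P (y2 + y1) (y3 + y1) - m3 * P (y2 + y3) (y3 + y3) := by linarith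
  rw [← e4]
  linarith

/-- The mean condition on the lower gap. -/
theorem Tri.R2_gap1 (h : Tri y1 y2 y3 m1 m2 m3) :
    m3 * P (y1 + y3) (y2 + y3) * ((y2 - y1) / 2 - G (-(y1 + y3))) ≤
      (m1 * P (y1 + y1) (y2 + y1) + m2 * P (y1 + y2) (y2 + y2)) * ((y2 - y1) / 2) := by
  have h12 := h.h12
  have h23 := h.h23
  have hA := h.A1
  have c1 : m1 * C (y1 + y1) (y2 + y1) ≤ m1 * P (y1 + y1) (y2 + y1) * ((y2 - y1) / 2) := by
    have e1 := mul_le_mul_of_nonneg_left (C_le_half (y1 + y1) (y2 + y1)) h.m1pos.le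
    have e2 : (y2 + y1 - (y1 + y1)) / 2 = (y2 - y1) / 2 := by ring
    rw [e2, ← mul_assoc] at e1
    exact e1
  have c2 : m2 * C (y1 + y2) (y2 + y2) ≤ m2 * P (y1 + y2) (y2 + y2) * ((y2 - y1) / 2) := by
    have e1 := mul_le_mul_of_nonneg_left (C_le_half (y1 + y2) (y2 + y2)) h.m2pos.le
    have e2 : (y2 + y2 - (y1 + y2)) / 2 = (y2 - y1) / 2 := by ring
    rw [e2, ← mul_assoc] at e1
    exact e1
  have c3 : m3 * C (y1 + y3) (y2 + y3) ≤
      m3 * P (y1 + y3) (y2 + y3) * (G (-(y1 + y3)) - (y2 - y1) / 2) := by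
    have e1 := mul_le_mul_of_nonneg_left (C_le (a := y1 + y3) (b := y2 + y3) (by linarith))
      h.m3pos.le
    have e2 : (y2 + y3 - (y1 + y3)) / 2 = (y2 - y1) / 2 := by ring
    rw [e2, ← mul_assoc] at e1
    exact e1
  linarith

theorem s_neg' (t : ℝ) : s (-t) = s t := by
  unfold s
  rw [sigmoid_neg]
  ring

theorem S_neg_le (t : ℝ) : sigmoid (-t) ≤ Real.exp (-t) := by
  rw [sigmoid_neg, PS.one_sub_sigmoid, Real.exp_neg]
  exact inv_anti₀ (Real.exp_pos t) (by linarith [Real.exp_pos t])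

theorem S_neg_eq (t : ℝ) : sigmoid (-t) = (1 + Real.exp t)⁻¹ := by
  rw [sigmoid_neg, PS.one_sub_sigmoid]

/-- The mass of the first atom in the upper gap. -/
theorem Tri.R2_A_le (h : Tri y1 y2 y3 m1 m2 m3) :
    m1 * P (y2 + y1) (y3 + y1) ≤
      (m1 * s (y3 + y1) + m2 * s (y3 + y2) + m3 * s (y3 + y3)) * (1 + Real.exp (y1 + y3)) := by
  have h1 := mul_pos h.m2pos (s_pos (y3 + y2))
  have h2 := mul_pos h.m3pos (s_pos (y3 + y3))
  have h3 := mul_pos h.m1pos (sigmoid_pos (y2 + y1))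
  have h4 : m1 * P (y2 + y1) (y3 + y1) ≤ m1 * sigmoid (y3 + y1) := by
    unfold P
    linarith
  have h5 : m1 * sigmoid (y3 + y1) = m1 * s (y3 + y1) * (1 + Real.exp (y1 + y3)) := by
    have e1 : s (y3 + y1) * (1 + Real.exp (y1 + y3)) = sigmoid (y3 + y1) := by
      unfold s
      rw [PS.one_sub_sigmoid, add_comm y1 y3, mul_assoc, inv_mul_cancel₀, mul_one]
      positivity
    rw [mul_assoc, e1]
  rw [h5] at h4
  refine h4.trans (mul_le_mul_of_nonneg_right (by linarith) (by positivity))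

/-- The mass of the first two atoms in the lower gap. -/
theorem Tri.R2_X_le (h : Tri y1 y2 y3 m1 m2 m3) :
    m1 * P (y1 + y1) (y2 + y1) + m2 * P (y1 + y2) (y2 + y2) ≤
      m1 * sigmoid (y2 + y1) + m2 * sigmoid (y2 + y2) := by
  have h3 := mul_pos h.m1pos (sigmoid_pos (y1 + y1))
  have h4 := mul_pos h.m2pos (sigmoid_pos (y1 + y2))
  unfold P
  linarith

/-- The mass of the third atom in the upper gap. -/
theorem Tri.R2_D_le (h : Tri y1 y2 y3 m1 m2 m3) :
    m3 * P (y2 + y3) (y3 + y3) ≤ m3 * sigmoid (-(y2 + y3)) := by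
  have h1 := sigmoid_lt_one (y3 + y3)
  have h2 : P (y2 + y3) (y3 + y3) ≤ sigmoid (-(y2 + y3)) := by
    unfold P
    rw [sigmoid_neg]
    linarith
  exact mul_le_mul_of_nonneg_left h2 h.m3pos.le

end Pool.Agent.helper26.B3
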