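import Pool.Agent.helper85.B3.RegB

/-!
Regime (ii) of T3: numerical bounds and the chain lemma.
-/

set_option autoImplicit false

namespace Pool.Agent.helper26.B3

open Real Set

theorem G_bound {x E l : ℝ} (hx : 0 ≤ x) (hE0 : 0 < E) (hE : E ≤ Real.exp x)
    (hl : 1 + 1 / E ≤ Real.exp l) : G x ≤ (x + l) * (1 + 1 / E) := by
  have h0 : Real.exp (-x) ≤ 1 / E := by
    rw [Real.exp_neg, one_div]
    exact inv_anti₀ hE0 hE
  have h1 : L x = x + L (-x) := by
    rw [L_neg]
    ring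
  have h2 : L (-x) ≤ l := by
    show Real.log (1 + Real.exp (-x)) ≤ l
    rw [Real.log_le_iff_le_exp (by positivity)]
    linarith
  have h3 : G x = L x * (1 / sigmoid x) := by
    unfold G
    rw [mul_one_div]
  have h4 : 0 < L (-x) := L_pos' (-x)
  rw [h3, inv_S, h1]
  exact mul_le_mul (by linarith) (by linarith) (by positivity) (by linarith)

theorem R2_G0 : G 0 ≤ 13864 / 10000 := by
  have h1 : (1 : ℝ) + 1 / 1 ≤ Real.exp (6932 / 10000) := by
    refine le_trans ?_ (Real.sum_le_exp_of_nonneg (x := 6932 / 10000) (by norm_num) 9)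
    norm_num [Finset.sum_range_succ, Nat.factorial]
  refine (G_bound (x := 0) (E := 1) (l := 6932 / 10000) le_rfl one_pos ?_ h1).trans ?_
  · rw [Real.exp_zero]
  · norm_num

theorem R2_G1 : G (36 / 100) ≤ 15098 / 10000 := by
  have h0 : (14333 / 10000 : ℝ) ≤ Real.exp (36 / 100) := by
    refine le_trans ?_ (Real.sum_le_exp_of_nonneg (x := 36 / 100) (by norm_num) 9)
    norm_num [Finset.sum_range_succ, Nat.factorial]
  have h1 : (1 : ℝ) + 1 / (14333 / 10000) ≤ Real.exp (5293 / 10000) := by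
    refine le_trans ?_ (Real.sum_le_exp_of_nonneg (x := 5293 / 10000) (by norm_num) 9)
    norm_num [Finset.sum_range_succ, Nat.factorial]
  refine (G_bound (by norm_num) (by norm_num) h0 h1).trans ?_
  norm_num

theorem R2_G2 : G (88 / 100) ≤ 17361 / 10000 := by
  have h0 : (24108 / 10000 : ℝ) ≤ Real.exp (88 / 100) := by
    refine le_trans ?_ (Real.sum_le_exp_of_nonneg (x := 88 / 100) (by norm_num) 11)
    norm_num [Finset.sum_range_succ, Nat.factorial]
  have h1 : (1 : ℝ) + 1 / (24108 / 10000) ≤ Real.exp (3470 / 10000) := by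
    refine le_trans ?_ (Real.sum_le_exp_of_nonneg (x := 3470 / 10000) (by norm_num) 9)
    norm_num [Finset.sum_range_succ, Nat.factorial]
  refine (G_bound (by norm_num) (by norm_num) h0 h1).trans ?_
  norm_num

theorem R2_G3 : G (152 / 100) ≤ 20938 / 10000 := by
  have h0 : (4572 / 1000 : ℝ) ≤ Real.exp (152 / 100) := by
    refine le_trans ?_ (Real.sum_le_exp_of_nonneg (x := 152 / 100) (by norm_num) 13)
    norm_num [Finset.sum_range_succ, Nat.factorial]
  have h1 : (1 : ℝ) + 1 / (4572 / 1000) ≤ Real.exp (1979 / 10000) := by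
    refine le_trans ?_ (Real.sum_le_exp_of_nonneg (x := 1979 / 10000) (by norm_num) 7)
    norm_num [Finset.sum_range_succ, Nat.factorial]
  refine (G_bound (by norm_num) (by norm_num) h0 h1).trans ?_
  norm_num

theorem R2_G4 : G (214 / 100) ≤ 25163 / 10000 := by
  have h0 : (8499 / 1000 : ℝ) ≤ Real.exp (214 / 100) := by
    refine le_trans ?_ (Real.sum_le_exp_of_nonneg (x := 214 / 100) (by norm_num) 15)
    norm_num [Finset.sum_range_succ, Nat.factorial]
  have h1 : (1 : ℝ) + 1 / (8499 / 1000) ≤ Real.exp (1113 / 10000) := by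
    refine le_trans ?_ (Real.sum_le_exp_of_nonneg (x := 1113 / 10000) (by norm_num) 6)
    norm_num [Finset.sum_range_succ, Nat.factorial]
  refine (G_bound (by norm_num) (by norm_num) h0 h1).trans ?_
  norm_num

theorem R2_e5 : (13197 / 1000 : ℝ) ≤ Real.exp (258 / 100) := by
  refine le_trans ?_ (Real.sum_le_exp_of_nonneg (x := 258 / 100) (by norm_num) 17)
  norm_num [Finset.sum_range_succ, Nat.factorial]

theorem R2_G5 : G (258 / 100) ≤ 28542 / 10000 := by
  have h1 : (1 : ℝ) + 1 / (13197 / 1000) ≤ Real.exp (731 / 10000) := by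
    refine le_trans ?_ (Real.sum_le_exp_of_nonneg (x := 731 / 10000) (by norm_num) 6)
    norm_num [Finset.sum_range_succ, Nat.factorial]
  refine (G_bound (by norm_num) (by norm_num) R2_e5 h1).trans ?_
  norm_num

theorem R2_f0 : (30041 / 10000 : ℝ) ≤ Real.exp (11 / 10) := by
  refine le_trans ?_ (Real.sum_le_exp_of_nonneg (x := 11 / 10) (by norm_num) 12)
  norm_num [Finset.sum_range_succ, Nat.factorial]

theorem R2_H0 : G (11 / 10) ≤ 18493 / 10000 := by
  have h1 : (1 : ℝ) + 1 / (30041 / 10000) ≤ Real.exp (2874 / 10000) := by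
    refine le_trans ?_ (Real.sum_le_exp_of_nonneg (x := 2874 / 10000) (by norm_num) 8)
    norm_num [Finset.sum_range_succ, Nat.factorial]
  refine (G_bound (by norm_num) (by norm_num) R2_f0 h1).trans ?_
  norm_num

theorem R2_H1 : G (287 / 100) ≤ 30911 / 10000 := by
  have h0 : (17636 / 1000 : ℝ) ≤ Real.exp (287 / 100) := by
    refine le_trans ?_ (Real.sum_le_exp_of_nonneg (x := 287 / 100) (by norm_num) 18)
    norm_num [Finset.sum_range_succ, Nat.factorial]
  have h1 : (1 : ℝ) + 1 / (17636 / 1000) ≤ Real.exp (552 / 10000) := by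
    refine le_trans ?_ (Real.sum_le_exp_of_nonneg (x := 552 / 10000) (by norm_num) 6)
    norm_num [Finset.sum_range_succ, Nat.factorial]
  refine (G_bound (by norm_num) (by norm_num) h0 h1).trans ?_
  norm_num

theorem R2_f2 : (5141 / 100 : ℝ) ≤ Real.exp (394 / 100) := by
  refine le_trans ?_ (Real.sum_le_exp_of_nonneg (x := 394 / 100) (by norm_num) 20)
  norm_num [Finset.sum_range_succ, Nat.factorial]

theorem R2_H2 : G (394 / 100) ≤ 40364 / 10000 := by
  have h1 : (1 : ℝ) + 1 / (5141 / 100) ≤ Real.exp (193 / 10000) := by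
    refine le_trans ?_ (Real.sum_le_exp_of_nonneg (x := 193 / 10000) (by norm_num) 5)
    norm_num [Finset.sum_range_succ, Nat.factorial]
  refine (G_bound (by norm_num) (by norm_num) R2_f2 h1).trans ?_
  norm_num

theorem R2_exp5 : (1484 / 10 : ℝ) ≤ Real.exp 5 := by
  refine le_trans ?_ (Real.sum_le_exp_of_nonneg (x := 5) (by norm_num) 22)
  norm_num [Finset.sum_range_succ, Nat.factorial]

theorem R2_expu {u : ℝ} (hu : 5 ≤ u) : Real.exp (-u) ≤ 674 / 100000 := by
  have h1 : Real.exp 5 ≤ Real.exp u := Real.exp_le_exp.2 hu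
  have h2 := R2_exp5
  rw [Real.exp_neg]
  calc (Real.exp u)⁻¹ ≤ (1484 / 10 : ℝ)⁻¹ := inv_anti₀ (by norm_num) (h2.trans h1)
    _ ≤ 674 / 100000 := by norm_num

theorem R2_uexpu {u : ℝ} (hu : 5 ≤ u) : u * Real.exp (-u) ≤ 337 / 10000 := by
  have h2 := R2_exp5
  have h3 : Real.exp u = Real.exp 5 * Real.exp (u - 5) := by
    rw [← Real.exp_add]
    congr 1
    ring
  have h4 : u - 4 ≤ Real.exp (u - 5) := by
    have := Real.add_one_le_exp (u - 5)
    linarith
  have h5 : (1484 / 10 : ℝ) * (u - 4) ≤ Real.exp u := by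
    rw [h3]
    exact mul_le_mul h2 h4 (by linarith) (Real.exp_pos 5).le
  rw [Real.exp_neg, ← div_eq_mul_inv, div_le_iff₀ (Real.exp_pos u)]
  nlinarith

/-- The chain lemma. -/
theorem R2_step {v u p A D A0 D0 p0 p1 G0 : ℝ} (hv : v = u + p) (hu : 5 ≤ u) (h0 : p0 ≤ p)
    (h1 : p ≤ p1) (hp0 : 0 ≤ p0) (hG : G p0 ≤ G0)
    (hm : (v - A - D) * (v / 2 - G p) ≤ A * (v / 2)) (hA : A ≤ A0) (hD : D ≤ D0) (hA0 : 0 ≤ A0)
    (hAD : A0 + D0 ≤ 2) (hc : A0 / 2 < (5 - p1) / 2 - G0 + p0)
    (hcc : (A0 + D0) * ((5 - p1) / 2 - G0 + p0) <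
      (5 + p0) * ((5 - p1) / 2 - G0 + p0 - A0 / 2)) : False := by
  set c := (5 - p1) / 2 - G0 + p0 with hcdef
  have hs := G_slope h0
  have h2 : c ≤ v / 2 - G p := by
    rw [hcdef, hv]
    linarith
  have hvv : 5 + p0 ≤ v := by linarith
  have hc0 : 0 < c := by linarith
  have h3 : (v - A0 - D0) * c ≤ (v - A - D) * (v / 2 - G p) :=
    mul_le_mul (by linarith) h2 hc0.le (by linarith)
  have h4 : A * (v / 2) ≤ A0 * (v / 2) := mul_le_mul_of_nonneg_right hA (by linarith)
  have h5 : (5 + p0) * (c - A0 / 2) ≤ v * (c - A0 / 2) :=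
    mul_le_mul_of_nonneg_right hvv (by linarith)
  nlinarith

end Pool.Agent.helper26.B3
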