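import Pool.Agent.helper52.B3.Gaps

/-!
Regime (ii) of T3: `y2 ≤ 0`, `y2 + y3 ≥ 5`, `-(y1 + y3) ≥ 11/10` is impossible.
-/

set_option autoImplicit false

namespace Pool.Agent.helper26.B3

open Real Set

/-- The final algebraic inequality. -/
theorem R2_alg {u p q v w r σ τ l : ℝ} (hv : v = u + p) (hw : w = u + q) (hu : 5 ≤ u)
    (hq : q ≤ u) (huq : u - q ≤ 8 / 10) (hp : 0 < p) (hr0 : 0 ≤ r) (hr1 : r ≤ 1)
    (hδ : u - p ≤ 55 / 100 + 121 / 100 * r) (hσ1 : σ ≤ 674 / 100000)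
    (hτ : τ ≤ 1909 / 100000) (hσu : u * σ ≤ 337 / 10000) (hσ0 : 0 ≤ σ) (hl0 : 0 ≤ l)
    (hl1 : l ≤ 674 / 100000) (hlu : u * l ≤ 337 / 10000) :
    1 - r < 93 / 100 * (2 * (2 - r) * (1 - σ - τ) - 4 * w * σ / v - 4 * (2 - r) * (u + l) / v +
      4 * w * (p - 2 * l) / v ^ 2) := by
  have hv8 : 824 / 100 ≤ v := by linarith
  have hv0 : 0 < v := by linarith
  have hwu : 184 / 100 * u ≤ w := by linarith
  have hw2 : w ≤ 2 * u := by linarith
  obtain ⟨z, hz⟩ : ∃ z, z = (u - p) / v := ⟨_, rfl⟩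
  have hzu : u = v * (1 + z) / 2 := by
    rw [hz]
    field_simp
    linarith
  have hzp : p = v * (1 - z) / 2 := by
    rw [hz]
    field_simp
    linarith
  have hz1 : -1 < z := by
    rw [hz, lt_div_iff₀ hv0]
    linarith
  have hzm : z ≤ 668 / 10000 + 1469 / 10000 * r := by
    rw [hz, div_le_iff₀ hv0]
    have h1 : (668 / 10000 + 1469 / 10000 * r) * (824 / 100) ≤
        (668 / 10000 + 1469 / 10000 * r) * v :=
      mul_le_mul_of_nonneg_left hv8 (by linarith)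
    linarith
  have t1 : 4 * w * σ / v ≤ 328 / 10000 := by
    rw [div_le_iff₀ hv0]
    have h1 : w * σ ≤ 2 * u * σ := mul_le_mul_of_nonneg_right hw2 hσ0
    linarith
  have t2 : 4 * (2 - r) * (u + l) / v ≤ 2 * (2 - r) * (1 + z) + 66 / 10000 := by
    rw [div_le_iff₀ hv0]
    have h1 : 4 * (2 - r) * u = 2 * (2 - r) * (1 + z) * v := by
      rw [hzu]
      ring
    have h2 : 4 * (2 - r) * l ≤ 8 * l := by
      have := mul_nonneg hr0 hl0
      linarith
    have h3 : 4 * (2 - r) * (u + l) = 4 * (2 - r) * u + 4 * (2 - r) * l := by ring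
    rw [h3, h1]
    linarith
  have t3 : 184 / 100 * (1 - z ^ 2) - 8 / 1000 ≤ 4 * w * (p - 2 * l) / v ^ 2 := by
    rw [le_div_iff₀ (by positivity)]
    have h1 : 4 * (184 / 100 * u) * p ≤ 4 * w * p := by
      have := mul_le_mul_of_nonneg_right hwu hp.le
      linarith
    have h2 : 4 * (184 / 100 * u) * p = 184 / 100 * (1 - z ^ 2) * v ^ 2 := by
      rw [hzu, hzp]
      ring
    have h3 : w * l ≤ 2 * u * l := mul_le_mul_of_nonneg_right hw2 hl0
    have h4 : (824 / 100 : ℝ) ^ 2 ≤ v ^ 2 := pow_le_pow_left₀ (by norm_num) hv8 2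
    have h5 : 4 * w * (p - 2 * l) = 4 * w * p - 8 * (w * l) := by ring
    rw [h5]
    linarith
  have t4 : 2 * (2 - r) * (1 - σ - τ) ≥ 2 * (2 - r) - 1034 / 10000 := by
    have h1 : (2 - r) * (σ + τ) ≤ 2 * (2583 / 100000) :=
      (mul_le_mul_of_nonneg_left (by linarith : σ + τ ≤ 2583 / 100000) (by linarith)).trans
        (by nlinarith)
    linarith
  have hf : 184 / 100 * (1 - (668 / 10000 + 1469 / 10000 * r) ^ 2) -
      2 * (2 - r) * (668 / 10000 + 1469 / 10000 * r) ≤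
      184 / 100 * (1 - z ^ 2) - 2 * (2 - r) * z := by
    have h1 : 0 ≤ (668 / 10000 + 1469 / 10000 * r - z) *
        (184 / 100 * (z + (668 / 10000 + 1469 / 10000 * r)) + 2 * (2 - r)) :=
      mul_nonneg (by linarith) (by linarith)
    nlinarith
  nlinarith

theorem W_def (a b c d : ℝ) : W a b c d = L (b + d) - L (a + d) - L (b + c) + L (a + c) := rfl

theorem R2_W11 (a b : ℝ) : 0 ≤ W a b a b := by
  rw [W_def]
  have h1 := PS.L_tangent (a + b) (b - a)
  have h2 := PS.L_tangent (a + b) (a - b)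
  have e1 : a + b + (b - a) = b + b := by ring
  have e2 : a + b + (a - b) = a + a := by ring
  rw [e1] at h1
  rw [e2] at h2
  have e3 : L (b + a) = L (a + b) := by rw [add_comm]
  have h3 : L (a + b) + L (a + b) ≤ L (b + b) + L (a + a) := by
    show PS.L (a + b) + PS.L (a + b) ≤ PS.L (b + b) + PS.L (a + a)
    linarith
  rw [e3]
  linarith

variable {y1 y2 y3 m1 m2 m3 : ℝ}

/-- The second order condition, with the sharp exchange. -/
theorem Tri.R2_T3 (h : Tri y1 y2 y3 m1 m2 m3) {r : ℝ}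
    (hr : r = m1 * s (y3 + y1) + m2 * s (y3 + y2) + m3 * s (y3 + y3)) :
    m3 * (2 * (2 - r) * P (y1 + y3) (y2 + y3) - 4 * (y2 - y1) * sigmoid (-(y2 + y3)) / (y3 - y2) -
      4 * (2 - r) * (y2 + y3 + L (-(y2 + y3))) / (y3 - y2) +
      4 * (y2 - y1) * (-(2 * y2) - 2 * L (-(y2 + y3))) / (y3 - y2) ^ 2) ≤
      (y2 - y1) * (1 - r) := by
  have h12 := h.h12
  have h23 := h.h23
  have hw : 0 < y2 - y1 := by linarith
  have hv : 0 < y3 - y2 := by linarith
  have ha3 := h.a3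
  rw [← hr] at ha3
  have hT := h.T3 ((2 - r) / (y2 - y1)) (-2 / (y3 - y2)) (by
    rw [← hr]
    field_simp
    ring)
  rw [← hr] at hT
  set g1 := (2 - r) / (y2 - y1) with hg1
  set g2 := -2 / (y3 - y2) with hg2
  have hg1p : 0 < g1 := div_pos (by linarith) hw
  have hg2n : g2 < 0 := div_neg_of_neg_of_pos (by norm_num) hv
  have hs := s_pos (y3 + y3)
  have w1 : 0 ≤ g1 ^ 2 * W y1 y2 y1 y2 := mul_nonneg (sq_nonneg _) (R2_W11 y1 y2)
  have hLu : L (y2 + y3) = y2 + y3 + L (-(y2 + y3)) := by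
    rw [L_neg]
    ring
  have w2 : 2 * g1 * g2 * (y2 + y3 + L (-(y2 + y3))) ≤ 2 * g1 * g2 * W y1 y2 y2 y3 := by
    refine mul_le_mul_of_nonpos_left ?_ ?_
    · rw [W_def, hLu]
      have h1 := L_pos' (y1 + y3)
      have h2 : L (y1 + y2) ≤ L (y2 + y2) := PS.L_mono (by linarith)
      linarith
    · exact mul_nonpos_of_nonneg_of_nonpos (by positivity) hg2n.le
  have w3 : g2 ^ 2 * (-(2 * y2) - 2 * L (-(y2 + y3))) ≤ g2 ^ 2 * W y2 y3 y2 y3 := by
    refine mul_le_mul_of_nonneg_left ?_ (sq_nonneg _)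
    rw [W_def, hLu]
    have h1 : L (y3 + y3) = y3 + y3 + L (-(y3 + y3)) := by
      rw [L_neg]
      ring
    have h2 := L_pos' (-(y3 + y3))
    have h3 := L_pos' (y2 + y2)
    have h4 : L (y3 + y2) = y2 + y3 + L (-(y2 + y3)) := by rw [add_comm, hLu]
    rw [h4, h1]
    linarith
  have w4 : 2 * g2 * sigmoid (-(y2 + y3)) ≤ 2 * g2 * P (y2 + y3) (y3 + y3) := by
    refine mul_le_mul_of_nonpos_left ?_ (by linarith)
    unfold P
    rw [sigmoid_neg]
    linarith [sigmoid_lt_one (y3 + y3)]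
  have hmain : m3 * (2 * g1 * P (y1 + y3) (y2 + y3) + 2 * g2 * sigmoid (-(y2 + y3)) +
      2 * g1 * g2 * (y2 + y3 + L (-(y2 + y3))) +
      g2 ^ 2 * (-(2 * y2) - 2 * L (-(y2 + y3)))) ≤ 1 - r := by
    refine le_trans (mul_le_mul_of_nonneg_left ?_ h.m3pos.le) hT
    linarith
  have h5 := mul_le_mul_of_nonneg_left hmain hw.le
  refine le_trans (le_of_eq ?_) h5
  rw [hg1, hg2]
  field_simp
  ring

end Pool.Agent.helper26.B3
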